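import Pool.Agent.helper5.LDH.Spec

set_option autoImplicit false

open Complex MeasureTheory

namespace Pool.Agent.LDH

open Pool.Agent.helper84.DM Pool.Agent.helper78.ED Pool.Agent.DH

theorem MSQ_sum {CS : ℝ} (hS : ∀ (s K : ℝ) (M : ℕ), -(1 / 2) ≤ s → s ≤ 1 / 2 → 1 ≤ K →
    ∑ h ∈ Finset.Ioo 0 M, (h : ℝ) ^ s * Real.exp (-((h : ℝ) / K) ^ 2) ≤ CS * K ^ (1 + s))
    (N : ℕ) (K c a b e d s s' : ℝ) (hK : 1 ≤ K) (hc : 0 ≤ c) (ha : 0 ≤ a) (hb : 0 ≤ b) (he : 0 ≤ e)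
    (hd : 0 ≤ d) (h1 : -(1 / 2) ≤ s) (h2 : s ≤ 1 / 2) (h3 : -(1 / 2) ≤ s') (h4 : s' ≤ 1 / 2) :
    ∑ h ∈ Finset.Ioo 0 N, (Real.exp (-((h : ℝ) / K) ^ 2) *
      (c * (a * (h : ℝ) ^ s * b + e * d * (h : ℝ) ^ s'))) ≤
    c * (a * b * (CS * K ^ (1 + s)) + e * d * (CS * K ^ (1 + s'))) := by
  have h5 : ∑ h ∈ Finset.Ioo 0 N, (Real.exp (-((h : ℝ) / K) ^ 2) *
      (c * (a * (h : ℝ) ^ s * b + e * d * (h : ℝ) ^ s'))) =
      c * (a * b * (∑ h ∈ Finset.Ioo 0 N, (h : ℝ) ^ s * Real.exp (-((h : ℝ) / K) ^ 2)) +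
        e * d * (∑ h ∈ Finset.Ioo 0 N, (h : ℝ) ^ s' * Real.exp (-((h : ℝ) / K) ^ 2))) := by
    rw [Finset.mul_sum, Finset.mul_sum, ← Finset.sum_add_distrib, Finset.mul_sum]
    refine Finset.sum_congr rfl fun h _ => ?_
    ring
  rw [h5]
  refine mul_le_mul_of_nonneg_left (add_le_add ?_ ?_) hc
  · exact mul_le_mul_of_nonneg_left (hS s K N h1 h2 hK) (mul_nonneg ha hb)
  · exact mul_le_mul_of_nonneg_left (hS s' K N h3 h4 hK) (mul_nonneg he hd)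

theorem MSQ_K (x y r : ℝ) (h0 : 0 ≤ r) (h2 : r ≤ 2) :
    (4 * Real.exp x / Real.exp y) ^ r ≤ 16 * Real.exp ((x - y) * r) := by
  rw [mul_div_assoc, ← Real.exp_sub, Real.mul_rpow (by norm_num) (Real.exp_pos _).le,
    ← Real.exp_mul]
  refine mul_le_mul_of_nonneg_right ?_ (Real.exp_pos _).le
  calc (4 : ℝ) ^ r ≤ (4 : ℝ) ^ (2 : ℝ) := Real.rpow_le_rpow_of_exponent_le (by norm_num) h2
    _ = 16 := by norm_num

theorem MSQ (hOFF : OFF_stmt) (hE2 : E2_stmt) (hE3 : E3_stmt) (hSUMH : SUMH_stmt) : MSQ_stmt := by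
  obtain ⟨C2, hC2, h2⟩ := hE2
  obtain ⟨C3, hC3, h3⟩ := hE3
  obtain ⟨CS, hCS, hS⟩ := hSUMH
  refine ⟨4 + 384 * (C2 + C3) * CS, by positivity, ?_⟩
  intro T H B N w hT hTH hHT hHN hNT hB hw
  have hT0 : 0 < T := by linarith
  have hH1 : 1 ≤ H := le_trans (Real.one_le_rpow hT (by norm_num)) hTH
  have hH0 : 0 < H := by linarith
  have hN1 : 1 ≤ N := by
    by_contra h
    have h1 : N = 0 := by omega
    rw [h1] at hHN
    norm_num at hHN
    linarith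
  have hN0 : (0 : ℝ) < N := by exact_mod_cast hN1
  obtain ⟨x, hx⟩ : ∃ x : ℝ, (N : ℝ) = Real.exp x := ⟨Real.log N, (Real.exp_log hN0).symm⟩
  obtain ⟨y, hy⟩ : ∃ y : ℝ, H = Real.exp y := ⟨Real.log H, (Real.exp_log hH0).symm⟩
  obtain ⟨z, hz⟩ : ∃ z : ℝ, T = Real.exp z := ⟨Real.log T, (Real.exp_log hT0).symm⟩
  have hzy : z * (1 / 4) ≤ y := by
    rw [hz, hy, ← Real.exp_mul] at hTH
    exact Real.exp_le_exp.1 hTH
  have hxz : x ≤ z := by
    rw [hx, hz] at hNT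
    exact Real.exp_le_exp.1 hNT
  set P : ℝ := (N : ℝ) ^ (3 / 2 : ℝ) * H ^ (1 / 2 : ℝ) with hP
  have hPe : P = Real.exp (x * (3 / 2) + y * (1 / 2)) := by
    rw [hP, hx, hy, ← Real.exp_mul, ← Real.exp_mul, ← Real.exp_add]
  have hP0 : 0 < P := by rw [hPe]; exact Real.exp_pos _
  have hK : 1 ≤ 4 * (N : ℝ) / H := by
    rw [le_div_iff₀ hH0]
    linarith
  -- the diagonal
  have hdiag : H * N ≤ 2 * P := by
    have h4 : H ≤ 4 * N := by linarith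
    have h5 : H ^ (1 / 2 : ℝ) ≤ 2 * (N : ℝ) ^ (1 / 2 : ℝ) := by
      calc H ^ (1 / 2 : ℝ) ≤ (4 * (N : ℝ)) ^ (1 / 2 : ℝ) :=
            Real.rpow_le_rpow hH0.le h4 (by norm_num)
        _ = 2 * (N : ℝ) ^ (1 / 2 : ℝ) := by
            rw [Real.mul_rpow (by norm_num) hN0.le]
            congr 1
            rw [show (4 : ℝ) = 2 ^ (2 : ℝ) by norm_num, ← Real.rpow_mul (by norm_num)]
            norm_num
    have h6 : H * N = H ^ (1 / 2 : ℝ) * (H ^ (1 / 2 : ℝ) * N) := by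
      rw [hy, hx, ← Real.exp_mul, ← Real.exp_add, ← Real.exp_add, ← Real.exp_add]
      congr 1
      ring
    have h7 : 2 * P = 2 * (N : ℝ) ^ (1 / 2 : ℝ) * (H ^ (1 / 2 : ℝ) * N) := by
      rw [hPe, hy, hx, ← Real.exp_mul, ← Real.exp_mul, ← Real.exp_add, mul_assoc, ← Real.exp_add]
      congr 2
      ring
    rw [h6, h7]
    exact mul_le_mul_of_nonneg_right h5 (mul_nonneg (Real.rpow_nonneg hH0.le _) hN0.le)
  -- the sum
  have hmain : ∃ M : ℕ → ℝ, (∀ h ∈ Finset.Ioo 0 N, ∀ c, N ≤ c → c ≤ 2 * N - h →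
      ‖∑ n ∈ Finset.Ioc N c, PH T h n‖ ≤ M h) ∧
      H * ∑ h ∈ Finset.Ioo 0 N, (Real.exp (-((h : ℝ) / (4 * N / H)) ^ 2) * M h) ≤
        32 * (C2 + C3) * CS * P := by
    by_cases hcase : (N : ℝ) ≤ T ^ (1 / 3 : ℝ) * H ^ (2 / 3 : ℝ)
    · have hcx : x ≤ z * (1 / 3) + y * (2 / 3) := by
        rw [hx, hz, hy, ← Real.exp_mul, ← Real.exp_mul, ← Real.exp_add] at hcase
        exact Real.exp_le_exp.1 hcase
      refine ⟨fun h => C3 * (T ^ (1 / 6 : ℝ) * (h : ℝ) ^ (1 / 6 : ℝ) * (N : ℝ) ^ (1 / 3 : ℝ) +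
        (N : ℝ) ^ (7 / 6 : ℝ) * T ^ (-(1 / 6) : ℝ) * (h : ℝ) ^ (-(1 / 6) : ℝ)), ?_, ?_⟩
      · intro h hh c hc1 hc2
        rw [Finset.mem_Ioo] at hh
        exact h3 T N h N c hT (by omega) (by omega) le_rfl hc1 (by omega)
      · have h5 := MSQ_sum hS N (4 * N / H) C3 (T ^ (1 / 6 : ℝ)) ((N : ℝ) ^ (1 / 3 : ℝ))
          ((N : ℝ) ^ (7 / 6 : ℝ)) (T ^ (-(1 / 6) : ℝ)) (1 / 6) (-(1 / 6)) hK hC3.le
          (Real.rpow_nonneg hT0.le _) (Real.rpow_nonneg hN0.le _) (Real.rpow_nonneg hN0.le _)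
          (Real.rpow_nonneg hT0.le _) (by norm_num) (by norm_num) (by norm_num) (by norm_num)
        refine (mul_le_mul_of_nonneg_left h5 hH0.le).trans ?_
        have e1 : (4 * (N : ℝ) / H) ^ (1 + 1 / 6 : ℝ) ≤ 16 * Real.exp ((x - y) * (1 + 1 / 6)) := by
          rw [hx, hy]
          exact MSQ_K x y _ (by norm_num) (by norm_num)
        have e2 : (4 * (N : ℝ) / H) ^ (1 + -(1 / 6) : ℝ) ≤
            16 * Real.exp ((x - y) * (1 + -(1 / 6))) := by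
          rw [hx, hy]
          exact MSQ_K x y _ (by norm_num) (by norm_num)
        have a1 : T ^ (1 / 6 : ℝ) * (N : ℝ) ^ (1 / 3 : ℝ) * H *
            Real.exp ((x - y) * (1 + 1 / 6)) ≤ P := by
          rw [hPe, hx, hy, hz, ← Real.exp_mul, ← Real.exp_mul, ← Real.exp_add, ← Real.exp_add,
            ← Real.exp_add]
          apply Real.exp_le_exp.2
          linarith
        have a2 : (N : ℝ) ^ (7 / 6 : ℝ) * T ^ (-(1 / 6) : ℝ) * H *
            Real.exp ((x - y) * (1 + -(1 / 6))) ≤ P := by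
          rw [hPe, hx, hy, hz, ← Real.exp_mul, ← Real.exp_mul, ← Real.exp_add, ← Real.exp_add,
            ← Real.exp_add]
          apply Real.exp_le_exp.2
          linarith
        have b1 : T ^ (1 / 6 : ℝ) * (N : ℝ) ^ (1 / 3 : ℝ) * H *
            (4 * (N : ℝ) / H) ^ (1 + 1 / 6 : ℝ) ≤ 16 * P := by
          refine (mul_le_mul_of_nonneg_left e1 (by positivity)).trans ?_
          linarith
        have b2 : (N : ℝ) ^ (7 / 6 : ℝ) * T ^ (-(1 / 6) : ℝ) * H *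
            (4 * (N : ℝ) / H) ^ (1 + -(1 / 6) : ℝ) ≤ 16 * P := by
          refine (mul_le_mul_of_nonneg_left e2 (by positivity)).trans ?_
          linarith
        calc H * (C3 * (T ^ (1 / 6 : ℝ) * (N : ℝ) ^ (1 / 3 : ℝ) *
              (CS * (4 * (N : ℝ) / H) ^ (1 + 1 / 6 : ℝ)) + (N : ℝ) ^ (7 / 6 : ℝ) *
              T ^ (-(1 / 6) : ℝ) * (CS * (4 * (N : ℝ) / H) ^ (1 + -(1 / 6) : ℝ)))) =
            C3 * CS * (T ^ (1 / 6 : ℝ) * (N : ℝ) ^ (1 / 3 : ℝ) * H *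
              (4 * (N : ℝ) / H) ^ (1 + 1 / 6 : ℝ) + (N : ℝ) ^ (7 / 6 : ℝ) *
              T ^ (-(1 / 6) : ℝ) * H * (4 * (N : ℝ) / H) ^ (1 + -(1 / 6) : ℝ)) := by ring
          _ ≤ C3 * CS * (16 * P + 16 * P) :=
              mul_le_mul_of_nonneg_left (add_le_add b1 b2) (by positivity)
          _ ≤ 32 * (C2 + C3) * CS * P := by
              have : 0 ≤ C2 * CS * P := by positivity
              nlinarith
    · have hcx : z * (1 / 3) + y * (2 / 3) ≤ x := by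
        rw [hx, hz, hy, ← Real.exp_mul, ← Real.exp_mul, ← Real.exp_add] at hcase
        exact (Real.exp_lt_exp.1 (not_le.1 hcase)).le
      refine ⟨fun h => C2 * (T ^ (1 / 2 : ℝ) * (h : ℝ) ^ (1 / 2 : ℝ) * (N : ℝ) ^ (-(1 / 2) : ℝ) +
        (N : ℝ) ^ (3 / 2 : ℝ) * T ^ (-(1 / 2) : ℝ) * (h : ℝ) ^ (-(1 / 2) : ℝ)), ?_, ?_⟩
      · intro h hh c hc1 hc2
        rw [Finset.mem_Ioo] at hh
        exact h2 T N h N c hT (by omega) (by omega) le_rfl hc1 (by omega)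
      · have h5 := MSQ_sum hS N (4 * N / H) C2 (T ^ (1 / 2 : ℝ)) ((N : ℝ) ^ (-(1 / 2) : ℝ))
          ((N : ℝ) ^ (3 / 2 : ℝ)) (T ^ (-(1 / 2) : ℝ)) (1 / 2) (-(1 / 2)) hK hC2.le
          (Real.rpow_nonneg hT0.le _) (Real.rpow_nonneg hN0.le _) (Real.rpow_nonneg hN0.le _)
          (Real.rpow_nonneg hT0.le _) (by norm_num) (by norm_num) (by norm_num) (by norm_num)
        refine (mul_le_mul_of_nonneg_left h5 hH0.le).trans ?_
        have e1 : (4 * (N : ℝ) / H) ^ (1 + 1 / 2 : ℝ) ≤ 16 * Real.exp ((x - y) * (1 + 1 / 2)) := by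
          rw [hx, hy]
          exact MSQ_K x y _ (by norm_num) (by norm_num)
        have e2 : (4 * (N : ℝ) / H) ^ (1 + -(1 / 2) : ℝ) ≤
            16 * Real.exp ((x - y) * (1 + -(1 / 2))) := by
          rw [hx, hy]
          exact MSQ_K x y _ (by norm_num) (by norm_num)
        have a1 : T ^ (1 / 2 : ℝ) * (N : ℝ) ^ (-(1 / 2) : ℝ) * H *
            Real.exp ((x - y) * (1 + 1 / 2)) ≤ P := by
          rw [hPe, hx, hy, hz, ← Real.exp_mul, ← Real.exp_mul, ← Real.exp_add, ← Real.exp_add,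
            ← Real.exp_add]
          apply Real.exp_le_exp.2
          linarith
        have a2 : (N : ℝ) ^ (3 / 2 : ℝ) * T ^ (-(1 / 2) : ℝ) * H *
            Real.exp ((x - y) * (1 + -(1 / 2))) ≤ P := by
          rw [hPe, hx, hy, hz, ← Real.exp_mul, ← Real.exp_mul, ← Real.exp_add, ← Real.exp_add,
            ← Real.exp_add]
          apply Real.exp_le_exp.2
          linarith
        have b1 : T ^ (1 / 2 : ℝ) * (N : ℝ) ^ (-(1 / 2) : ℝ) * H *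
            (4 * (N : ℝ) / H) ^ (1 + 1 / 2 : ℝ) ≤ 16 * P := by
          refine (mul_le_mul_of_nonneg_left e1 (by positivity)).trans ?_
          linarith
        have b2 : (N : ℝ) ^ (3 / 2 : ℝ) * T ^ (-(1 / 2) : ℝ) * H *
            (4 * (N : ℝ) / H) ^ (1 + -(1 / 2) : ℝ) ≤ 16 * P := by
          refine (mul_le_mul_of_nonneg_left e2 (by positivity)).trans ?_
          linarith
        calc H * (C2 * (T ^ (1 / 2 : ℝ) * (N : ℝ) ^ (-(1 / 2) : ℝ) *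
              (CS * (4 * (N : ℝ) / H) ^ (1 + 1 / 2 : ℝ)) + (N : ℝ) ^ (3 / 2 : ℝ) *
              T ^ (-(1 / 2) : ℝ) * (CS * (4 * (N : ℝ) / H) ^ (1 + -(1 / 2) : ℝ)))) =
            C2 * CS * (T ^ (1 / 2 : ℝ) * (N : ℝ) ^ (-(1 / 2) : ℝ) * H *
              (4 * (N : ℝ) / H) ^ (1 + 1 / 2 : ℝ) + (N : ℝ) ^ (3 / 2 : ℝ) *
              T ^ (-(1 / 2) : ℝ) * H * (4 * (N : ℝ) / H) ^ (1 + -(1 / 2) : ℝ)) := by ring
          _ ≤ C2 * CS * (16 * P + 16 * P) :=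
              mul_le_mul_of_nonneg_left (add_le_add b1 b2) (by positivity)
          _ ≤ 32 * (C2 + C3) * CS * P := by
              have : 0 ≤ C3 * CS * P := by positivity
              nlinarith
  obtain ⟨M, hM, hsum⟩ := hmain
  have hJ := hOFF N w B H T M hN1 hH0 hB hw hM
  rw [← Finset.mul_sum] at hJ
  set S : ℝ := ∑ h ∈ Finset.Ioo 0 N, (Real.exp (-((h : ℝ) / (4 * N / H)) ^ 2) * M h) with hSdef
  have h8 : 2 * H * ((N : ℝ) + 2 * ((2 * B + 3) * S)) = 2 * (H * N) + 4 * (2 * B + 3) * (H * S) := by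
    ring
  rw [h8] at hJ
  have h9 : 4 * (2 * B + 3) * (H * S) ≤ 4 * (2 * B + 3) * (32 * (C2 + C3) * CS * P) :=
    mul_le_mul_of_nonneg_left hsum (by positivity)
  have h10 : 4 * (2 * B + 3) * (32 * (C2 + C3) * CS * P) ≤
      384 * (C2 + C3) * CS * (B + 1) * P := by
    have h11 : 0 ≤ B * ((C2 + C3) * CS * P) := by positivity
    nlinarith
  have h12 : 2 * (H * N) ≤ 4 * (B + 1) * P := by
    have h13 : 0 ≤ B * P := by positivity
    nlinarith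
  calc JJ N w H T ≤ 2 * (H * N) + 4 * (2 * B + 3) * (H * S) := hJ
    _ ≤ 4 * (B + 1) * P + 384 * (C2 + C3) * CS * (B + 1) * P :=
        add_le_add h12 (h9.trans h10)
    _ = (4 + 384 * (C2 + C3) * CS) * (B + 1) * P := by ring

end Pool.Agent.LDH
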